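import Pool.Agent.V5helper28.KP.Stm

/-!
# Project KP, job MD: mass distribution for outer measures
-/

set_option autoImplicit false

namespace Pool.Agent.V5helper69.KP

open MeasureTheory Set Filter Topology
open Pool.Agent.V5helper28.SSK
open scoped ENNReal NNReal

/-- the outer measure `U ↦ volume (fst '' (A ∩ Φ ⁻¹' U))` -/
noncomputable def nu {d : ℕ} (A : Set (E d × E d)) (Φ : E d × E d → E d) : OuterMeasure (E d) where
  measureOf U := volume (Prod.fst '' (A ∩ Φ ⁻¹' U))
  empty := by simp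
  mono h := measure_mono (image_mono (inter_subset_inter_right _ (preimage_mono h)))
  iUnion_nat s _ := by
    rw [preimage_iUnion, inter_iUnion, image_iUnion]
    exact measure_iUnion_le _

lemma nu_apply {d : ℕ} (A : Set (E d × E d)) (Φ : E d × E d → E d) (U : Set (E d)) :
    nu A Φ U = volume (Prod.fst '' (A ∩ Φ ⁻¹' U)) := rfl

theorem t_MD : Pool.Agent.V5helper28.KP.S_MD := by
  intro d A Φ s C δ₀ hs hδ₀ hC h hA
  rcases hs.eq_or_lt with h0 | h0
  · rw [← h0, ENNReal.ofReal_zero]
    exact zero_le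
  -- the constant
  set c : ℝ≥0∞ := ENNReal.ofReal (C + 1) with hc
  have hc0 : c ≠ 0 := (ENNReal.ofReal_pos.2 (by linarith)).ne'
  have hct : c ≠ ∞ := ENNReal.ofReal_ne_top
  have key : ∀ U : Set (E d), Metric.ediam U ≤ ENNReal.ofReal δ₀ →
      nu A Φ U ≤ (c • fun r : ℝ≥0∞ => r ^ s) (Metric.ediam U) := by
    intro U hU
    rw [nu_apply]
    have hfin : Metric.ediam U ≠ ∞ := ne_top_of_le_ne_top ENNReal.ofReal_ne_top hU
    have hdist : ∀ x ∈ U, ∀ y ∈ U, dist x y ≤ (Metric.ediam U).toReal := by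
      intro x hx y hy
      rw [dist_edist]
      exact ENNReal.toReal_mono hfin (Metric.edist_le_ediam_of_mem hx hy)
    rcases eq_or_ne (Metric.ediam U) 0 with hz | hz
    · have h1 : volume (Prod.fst '' (A ∩ Φ ⁻¹' U)) ≤ 0 := by
        have h2 : Tendsto (fun δ : ℝ => ENNReal.ofReal (C * δ ^ s)) (𝓝[>] 0) (𝓝 0) := by
          have h3 : Tendsto (fun δ : ℝ => C * δ ^ s) (𝓝 0) (𝓝 (C * 0 ^ s)) :=
            ((Real.continuous_rpow_const h0.le).tendsto 0).const_mul C
          rw [Real.zero_rpow h0.ne', mul_zero] at h3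
          have h4 := (ENNReal.continuous_ofReal.tendsto 0).comp h3
          rw [ENNReal.ofReal_zero] at h4
          exact h4.mono_left nhdsWithin_le_nhds
        refine ge_of_tendsto h2 ?_
        filter_upwards [Ioc_mem_nhdsGT hδ₀] with δ hδ
        refine h U δ hδ.1 hδ.2 fun x hx y hy => (hdist x hx y hy).trans ?_
        rw [hz, ENNReal.toReal_zero]
        exact hδ.1.le
      exact h1.trans zero_le
    · have hp : 0 < (Metric.ediam U).toReal := ENNReal.toReal_pos hz hfin
      have h1 := h U (Metric.ediam U).toReal hp (by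
        rw [← ENNReal.toReal_ofReal hδ₀.le]
        exact ENNReal.toReal_mono ENNReal.ofReal_ne_top hU) hdist
      refine h1.trans ?_
      rw [Pi.smul_apply, smul_eq_mul, ENNReal.ofReal_mul hC,
        ← ENNReal.ofReal_rpow_of_pos hp, ENNReal.ofReal_toReal hfin]
      gcongr
      rw [hc]
      exact ENNReal.ofReal_le_ofReal (by linarith)
  have hle : nu A Φ ≤ c • OuterMeasure.mkMetric fun r : ℝ≥0∞ => r ^ s := by
    rw [← OuterMeasure.mkMetric_smul _ hct hc0]
    exact OuterMeasure.le_mkMetric _ _ _ (ENNReal.ofReal_pos.2 hδ₀) key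
  have h1 : nu A Φ (Φ '' A) ≤ c * Measure.hausdorffMeasure s (Φ '' A) := by
    have h2 := hle (Φ '' A)
    rw [← Measure.mkMetric_toOuterMeasure] at h2
    exact h2
  have h2 : nu A Φ (Φ '' A) ≠ 0 := by
    rw [nu_apply, inter_eq_left.2 (subset_preimage_image Φ A)]
    exact hA
  have h3 : Measure.hausdorffMeasure s (Φ '' A) ≠ 0 := by
    intro h4
    rw [h4, mul_zero] at h1
    exact h2 (le_antisymm h1 zero_le)
  have h4 : ENNReal.ofReal s = ((s.toNNReal : ℝ≥0) : ℝ≥0∞) := rfl
  rw [h4]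
  refine le_dimH_of_hausdorffMeasure_ne_zero ?_
  rw [Real.coe_toNNReal s hs]
  exact h3

end Pool.Agent.V5helper69.KP
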