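import Pool.Agent.V5helper28.KP.Stm3

/-!
# Project KP, job PRO: the uniform product measure on the codes
-/

set_option autoImplicit false

namespace Pool.Agent.V5helper69.KP

open MeasureTheory Set
open scoped ENNReal

theorem t_PRO : Pool.Agent.V5helper28.KP.S_PRO := by
  intro m hm
  have : Nonempty (Fin m) := ⟨⟨0, hm⟩⟩
  let μ : Measure (Fin m) := (PMF.uniformOfFintype (Fin m)).toMeasure
  have hμp : IsProbabilityMeasure μ := PMF.toMeasure.isProbabilityMeasure _
  have hμ : ∀ a : Fin m, μ {a} = (m : ℝ≥0∞)⁻¹ := by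
    intro a
    rw [PMF.toMeasure_apply_singleton _ _ (measurableSet_singleton a),
      PMF.uniformOfFintype_apply, Fintype.card_fin]
  refine ⟨Measure.infinitePi (fun _ : ℕ => μ), inferInstance, fun n u => ?_⟩
  have h1 : {ω : ℕ → Fin m | ∀ j : Fin n, ω j = u j} =
      Set.pi (Finset.range n : Set ℕ)
        (fun i => if h : i < n then ({u ⟨i, h⟩} : Set (Fin m)) else univ) := by
    ext ω
    constructor
    · intro h i hi
      have hi' : i < n := Finset.mem_range.1 hi
      beta_reduce
      rw [dif_pos hi']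
      exact h ⟨i, hi'⟩
    · intro h j
      have h2 := h j.1 (Finset.mem_coe.2 (Finset.mem_range.2 j.2))
      beta_reduce at h2
      rw [dif_pos j.2] at h2
      exact h2
  rw [h1, Measure.infinitePi_pi]
  · have h3 : ∀ i ∈ Finset.range n,
        μ (if h : i < n then ({u ⟨i, h⟩} : Set (Fin m)) else univ) = (m : ℝ≥0∞)⁻¹ := by
      intro i hi
      rw [dif_pos (Finset.mem_range.1 hi)]
      exact hμ _
    rw [Finset.prod_congr rfl h3, Finset.prod_const, Finset.card_range]
    have hm' : (0 : ℝ) < m := Nat.cast_pos.2 hm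
    rw [ENNReal.ofReal_pow (inv_nonneg.2 hm'.le), ENNReal.ofReal_inv_of_pos hm',
      ENNReal.ofReal_natCast]
  · intro i _
    exact (Set.toFinite _).measurableSet

end Pool.Agent.V5helper69.KP
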