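import Pool.Agent.V5helper28.KP.Stm2
import Pool.Agent.V5helper72.SSK.JobB

/-!
# Project KP, job BB: Baire category in graph-directed systems
-/

set_option autoImplicit false

namespace Pool.Agent.V5helper69.KP

open MeasureTheory Set
open Pool.Agent.V5helper28.SSK Pool.Agent.V5helper28.KP

variable {d : ℕ} {P I : Type} {src tgt : I → P} {R : I → ℝ} {b : I → E d × E d}
  {Γ : P → Set (E d × E d)}

lemma step (h : GD P I src tgt R b Γ) (i : I) {w : E d × E d} (hw : w ∈ Γ (tgt i)) :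
    R i • w + b i ∈ Γ (src i) := by
  rw [h.inv (src i)]
  exact mem_iUnion.2 ⟨i, mem_iUnion.2 ⟨rfl, w, hw, rfl⟩⟩

/-- Deep cylinders around a point. -/
theorem deep (h : GD P I src tgt R b Γ) (ρ : ℝ) (hρ : ∀ i, R i ≤ ρ) (hρ0 : 0 < ρ) (p : P)
    (n : ℕ) : ∀ z ∈ Γ p, ∃ (q : P) (R' : ℝ) (b' : E d × E d), 0 < R' ∧ R' ≤ ρ ^ n ∧
      (∀ w ∈ Γ q, R' • w + b' ∈ Γ p) ∧ ∃ w ∈ Γ q, z = R' • w + b' := by
  induction n with
  | zero =>
    intro z hz
    refine ⟨p, 1, 0, one_pos, by simp, fun w hw => by simpa using hw, z, hz, by simp⟩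
  | succ n ih =>
    intro z hz
    obtain ⟨q, R', b', h0, h1, h2, w, hw, h3⟩ := ih z hz
    rw [h.inv q] at hw
    obtain ⟨i, hw⟩ := mem_iUnion.1 hw
    obtain ⟨rfl, u, hu, rfl⟩ := mem_iUnion.1 hw
    refine ⟨tgt i, R' * R i, R' • b i + b', mul_pos h0 (h.ratio i).1, ?_, ?_, u, hu, ?_⟩
    · rw [pow_succ]
      exact mul_le_mul h1 (hρ i) (h.ratio i).1.le (pow_nonneg hρ0.le n)
    · intro w hw
      have h4 := h2 _ (step h i hw)
      rw [smul_add, smul_smul, add_assoc] at h4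
      exact h4
    · rw [h3]
      simp only [smul_add, smul_smul, add_assoc]

/-- A path from `q` to `p` gives a homothety which maps `Γ p` into `Γ q`. -/
theorem path (h : GD P I src tgt R b Γ) (q p : P) :
    ∃ (R' : ℝ) (b' : E d × E d), 0 < R' ∧ ∀ w ∈ Γ p, R' • w + b' ∈ Γ q := by
  induction h.conn q p with
  | refl => exact ⟨1, 0, one_pos, fun w hw => by simpa using hw⟩
  | tail _ hst ih =>
    obtain ⟨R', b', h0, h1⟩ := ih
    obtain ⟨i, rfl, rfl⟩ := hst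
    refine ⟨R' * R i, R' • b i + b', mul_pos h0 (h.ratio i).1, fun w hw => ?_⟩
    have h2 := h1 _ (step h i hw)
    rw [smul_add, smul_smul, add_assoc] at h2
    exact h2

theorem t_BB : S_BB := by
  classical
  intro d P I _ _ src tgt R b Γ hG p K hK hseg
  have : Nonempty P := ⟨p⟩
  have : Nonempty I := by
    obtain ⟨z, hz⟩ := hG.nonempty p
    rw [hG.inv p] at hz
    exact ⟨(mem_iUnion.1 hz).choose⟩
  -- the maximal ratio
  obtain ⟨i₀, hi₀⟩ := Finite.exists_max R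
  set ρ := R i₀ with hρ
  have hρ0 : 0 < ρ := (hG.ratio i₀).1
  have hρ1 : ρ < 1 := (hG.ratio i₀).2
  -- Baire
  have : CompactSpace (Γ p) := isCompact_iff_compactSpace.1 (hG.compact p)
  have : Nonempty (Γ p) := (hG.nonempty p).to_subtype
  let F : ℚ × ℚ → Set (Γ p) := fun p' =>
    if (p'.1 : ℝ) < p'.2 then
      {z : Γ p | ∀ t ∈ Icc (p'.1 : ℝ) (p'.2 : ℝ), pt t (z.1.2 + t • z.1.1) ∈ K}
    else ∅
  have hFp : ∀ p' : ℚ × ℚ, (p'.1 : ℝ) < p'.2 → F p' =
      {z : Γ p | ∀ t ∈ Icc (p'.1 : ℝ) (p'.2 : ℝ), pt t (z.1.2 + t • z.1.1) ∈ K} :=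
    fun p' hp => if_pos hp
  have hFn : ∀ p' : ℚ × ℚ, ¬ (p'.1 : ℝ) < p'.2 → F p' = ∅ := fun p' hp => if_neg hp
  have hFc : ∀ p', IsClosed (F p') := by
    intro p'
    by_cases hp : (p'.1 : ℝ) < p'.2
    · have : F p' = ⋂ t ∈ Icc (p'.1 : ℝ) (p'.2 : ℝ), {z : Γ p | pt t (z.1.2 + t • z.1.1) ∈ K} := by
        rw [hFp p' hp]
        ext z
        simp only [mem_ofPred_eq, mem_iInter]
      rw [this]
      refine isClosed_biInter fun t _ => hK.preimage ?_
      refine Pool.Agent.V5helper72.SSK.continuous_pt.comp (continuous_const.prodMk ?_)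
      exact (continuous_snd.comp continuous_subtype_val).add
        ((continuous_fst.comp continuous_subtype_val).const_smul t)
    · rw [hFn p' hp]
      exact isClosed_empty
  have hFU : (⋃ p', F p') = univ := by
    refine eq_univ_of_forall fun z => ?_
    obtain ⟨t₁, t₂, h12, h⟩ := hseg z.1 z.2
    obtain ⟨a, ha1, ha2⟩ := exists_rat_btwn h12
    obtain ⟨c, hc1, hc2⟩ := exists_rat_btwn ha2
    refine mem_iUnion.2 ⟨(a, c), ?_⟩
    rw [hFp (a, c) hc1]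
    intro t ht
    exact h t ⟨ha1.le.trans ht.1, ht.2.trans hc2.le⟩
  obtain ⟨p', z₀, hz₀⟩ := nonempty_interior_of_iUnion_of_closed hFc hFU
  have hpp : (p'.1 : ℝ) < p'.2 := by
    by_contra hcon
    rw [hFn p' hcon, interior_empty] at hz₀
    exact hz₀
  obtain ⟨ε, hε, hball⟩ := Metric.mem_nhds_iff.1 (mem_interior_iff_mem_nhds.1 hz₀)
  -- a small cylinder
  have hbd : ∀ q : P, ∃ D : ℝ, ∀ z ∈ Γ q, ‖z‖ ≤ D := fun q =>
    (hG.compact q).isBounded.exists_norm_le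
  choose D' hD' using hbd
  obtain ⟨q₀, hq₀⟩ := Finite.exists_max D'
  set D := D' q₀ with hDdef
  have hD : ∀ q, ∀ z ∈ Γ q, ‖z‖ ≤ D := fun q z hz => (hD' q z hz).trans (hq₀ q)
  have hDpos : 0 ≤ D := (norm_nonneg _).trans (hD p _ z₀.2)
  obtain ⟨n, hn⟩ : ∃ n : ℕ, ρ ^ n * (2 * D + 1) < ε := by
    obtain ⟨n, hn⟩ := exists_pow_lt_of_lt_one (div_pos hε (by linarith : (0 : ℝ) < 2 * D + 1)) hρ1
    exact ⟨n, by rwa [lt_div_iff₀ (by linarith)] at hn⟩
  obtain ⟨q, R', b', h0, h1, h2, w, hw, h3⟩ := deep hG ρ hi₀ hρ0 p n z₀.1 z₀.2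
  obtain ⟨R'', b'', h4, h5⟩ := path hG q p
  refine ⟨R' * R'', R' • b'' + b', p'.1, p'.2, mul_pos h0 h4, hpp, ?_⟩
  intro z hz t ht
  have hzq : R'' • z + b'' ∈ Γ q := h5 z hz
  have heq : (R' * R'') • z + (R' • b'' + b') = R' • (R'' • z + b'') + b' := by
    rw [smul_add, smul_smul, add_assoc]
  rw [heq]
  have hmem : (⟨R' • (R'' • z + b'') + b', h2 _ hzq⟩ : Γ p) ∈ F p' := by
    apply hball
    rw [Metric.mem_ball, Subtype.dist_eq, dist_eq_norm, h3]
    have h6 : R' • (R'' • z + b'') + b' - (R' • w + b') = R' • (R'' • z + b'' - w) := by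
      rw [smul_sub]
      abel
    rw [h6, norm_smul, Real.norm_of_nonneg h0.le]
    have hzw : ‖R'' • z + b'' - w‖ ≤ 2 * D + 1 := by
      have := norm_sub_le (R'' • z + b'') w
      linarith [hD q _ hzq, hD q w hw]
    calc R' * ‖R'' • z + b'' - w‖ ≤ ρ ^ n * (2 * D + 1) :=
          mul_le_mul h1 hzw (norm_nonneg _) (pow_nonneg hρ0.le n)
      _ < ε := hn
  rw [hFp p' hpp] at hmem
  exact hmem t ht

end Pool.Agent.V5helper69.KP
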